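import Pool.Agent.Q145.PC.Four

/-!
# Disjoint unions of complete bipartite graphs are pairwise compatibility graphs
-/

set_option autoImplicit false

namespace Pool.Agent.Q145.PC

open SimpleGraph

/-- a graph whose edges join every vertex other than the root to its parent is a tree -/
theorem isTree_of_parent {V : Type} {T : SimpleGraph V} {par : V → V} {o : V} (lev : V → ℕ)
    (hpar : ∀ v, v ≠ o → T.Adj v (par v))
    (hlev : ∀ v, v ≠ o → lev (par v) < lev v)
    (hadj : ∀ u v, T.Adj u v → (u ≠ o ∧ par u = v) ∨ (v ≠ o ∧ par v = u)) : T.IsTree := by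
  classical
  constructor
  · have h : ∀ (n : ℕ) (v : V), lev v ≤ n → T.Reachable v o := by
      intro n
      induction n with
      | zero =>
        intro v hv
        by_cases hvo : v = o
        · rw [hvo]
        · have := hlev v hvo; omega
      | succ n ih =>
        intro v hv
        by_cases hvo : v = o
        · rw [hvo]
        · have := hlev v hvo
          exact (hpar v hvo).reachable.trans (ih _ (by omega))
    exact (SimpleGraph.connected_iff _).mpr
      ⟨fun u v => (h _ u le_rfl).trans (h _ v le_rfl).symm, ⟨o⟩⟩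
  · intro v c hcyc
    obtain ⟨u, hu, hmax⟩ := c.support.toFinset.exists_max_image lev
      ⟨v, List.mem_toFinset.2 c.start_mem_support⟩
    have hu' : u ∈ c.support := List.mem_toFinset.1 hu
    have hc' := hcyc.rotate hu'
    have hmax' : ∀ w ∈ (c.rotate u hu').support, lev w ≤ lev u := fun w hw =>
      hmax w (List.mem_toFinset.2 ((SimpleGraph.Walk.mem_support_rotate_iff c u hu').1 hw))
    have hnil := hc'.not_nil
    have a1 := (c.rotate u hu').adj_snd hnil
    have a2 := (c.rotate u hu').adj_penultimate hnil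
    have b1 := hmax' _ ((c.rotate u hu').getVert_mem_support 1)
    have b2 := hmax' _ ((c.rotate u hu').getVert_mem_support ((c.rotate u hu').length - 1))
    have e1 : (c.rotate u hu').snd = par u := by
      rcases hadj _ _ a1 with h1 | h1
      · exact h1.2.symm
      · have := hlev _ h1.1
        rw [h1.2] at this
        exact absurd this (not_lt.2 b1)
    have e2 : (c.rotate u hu').penultimate = par u := by
      rcases hadj _ _ a2 with h1 | h1
      · have := hlev _ h1.1
        rw [h1.2] at this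
        exact absurd this (not_lt.2 b2)
      · exact h1.2.symm
    exact hc'.snd_ne_penultimate (e1.trans e2.symm)

variable {t p q : ℕ}

/-- The disjoint union of `t` complete bipartite graphs `K_{p,q}`. -/
def bip (t p q : ℕ) : SimpleGraph (Fin t × (Fin p ⊕ Fin q)) where
  Adj x y := x.1 = y.1 ∧ x.2.isLeft ≠ y.2.isLeft
  symm := ⟨fun _ _ h => ⟨h.1.symm, h.2.symm⟩⟩
  loopless := ⟨fun _ h => h.2 rfl⟩

/-- root, hubs and leaves -/
abbrev Nd (t p q : ℕ) : Type := Option (Fin t ⊕ (Fin t × (Fin p ⊕ Fin q)))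

/-- the parent -/
def par : Nd t p q → Nd t p q
  | none => none
  | some (Sum.inl _) => none
  | some (Sum.inr v) => some (Sum.inl v.1)

/-- the level -/
def lev : Nd t p q → ℕ
  | none => 0
  | some (Sum.inl _) => 1
  | some (Sum.inr _) => 2

theorem lev_par (x : Nd t p q) (h : x ≠ none) : lev (par x) < lev x := by
  rcases x with _ | (i | v)
  · exact absurd rfl h
  · exact Nat.zero_lt_one
  · exact Nat.one_lt_two

theorem par_ne (x : Nd t p q) (h : x ≠ none) : par x ≠ x := fun h' => by
  have := lev_par x h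
  rw [h'] at this
  exact lt_irrefl _ this

/-- the tree -/
def tr (t p q : ℕ) : SimpleGraph (Nd t p q) where
  Adj x y := (x ≠ none ∧ par x = y) ∨ (y ≠ none ∧ par y = x)
  symm := ⟨fun _ _ h => h.symm⟩
  loopless := ⟨fun x h => by rcases h with h | h <;> exact par_ne x h.1 h.2⟩

theorem tr_isTree : (tr t p q).IsTree :=
  isTree_of_parent (par := par) (o := none) lev (fun _ hv => Or.inl ⟨hv, rfl⟩) lev_par
    (fun _ _ h => h)

/-- the leaf edge weights -/
def lw (v : Fin t × (Fin p ⊕ Fin q)) : ℝ := if v.2.isLeft then 1 else 3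

open Classical in
/-- the edge weights -/
noncomputable def wgt (e : Sym2 (Nd t p q)) : ℝ :=
  if none ∈ e then 10 else
    if ∃ i a, (some (Sum.inr (i, Sum.inl a)) : Nd t p q) ∈ e then 1 else 3

theorem wgt_nonneg (e : Sym2 (Nd t p q)) : 0 ≤ wgt e := by
  unfold wgt
  split_ifs <;> norm_num

/-- the leaf of a vertex -/
def lf (v : Fin t × (Fin p ⊕ Fin q)) : Nd t p q := some (Sum.inr v)

/-- the hubs -/
def hub (i : Fin t) : Nd t p q := some (Sum.inl i)

theorem lf_hub (v : Fin t × (Fin p ⊕ Fin q)) (i : Fin t) (h : v.1 = i) :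
    (tr t p q).Adj (lf v) (hub i) := by
  subst h
  exact Or.inl ⟨by unfold lf; exact Option.some_ne_none _, rfl⟩

theorem hub_root (i : Fin t) : (tr t p q).Adj (hub i) none :=
  Or.inl ⟨by unfold hub; exact Option.some_ne_none _, rfl⟩

theorem wgt_lf (v : Fin t × (Fin p ⊕ Fin q)) (i : Fin t) : wgt s(lf v, hub i) = lw v := by
  obtain ⟨j, a | b⟩ := v
  · simp [wgt, lf, hub, lw]
  · simp [wgt, lf, hub, lw]

theorem wgt_root (i : Fin t) : wgt s((hub i : Nd t p q), none) = 10 := by
  simp [wgt, hub]

/-- the distances -/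
noncomputable def val (u v : Fin t × (Fin p ⊕ Fin q)) : ℝ :=
  if u.1 = v.1 then lw u + lw v else lw u + 20 + lw v

theorem exists_path (u v : Fin t × (Fin p ⊕ Fin q)) (h : u ≠ v) :
    ∃ P : (tr t p q).Walk (lf u) (lf v), P.IsPath ∧ wt wgt P = val u v := by
  unfold val
  by_cases h1 : u.1 = v.1
  · rw [if_pos h1]
    refine ⟨Walk.cons (lf_hub u u.1 rfl) (Walk.cons (lf_hub v u.1 h1.symm).symm Walk.nil), ?_, ?_⟩
    · rw [Walk.isPath_def]
      show [lf u, hub u.1, lf v].Nodup
      simp [lf, hub, h]
    · simp only [wt, Walk.edges_cons, Walk.edges_nil, List.map_cons, List.map_nil, List.sum_cons,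
        List.sum_nil]
      rw [wgt_lf, Sym2.eq_swap, wgt_lf, add_zero]
  · rw [if_neg h1]
    refine ⟨Walk.cons (lf_hub u u.1 rfl) (Walk.cons (hub_root u.1) (Walk.cons (hub_root v.1).symm
      (Walk.cons (lf_hub v v.1 rfl).symm Walk.nil))), ?_, ?_⟩
    · rw [Walk.isPath_def]
      show [lf u, hub u.1, none, hub v.1, lf v].Nodup
      simp [lf, hub, h, h1]
    · simp only [wt, Walk.edges_cons, Walk.edges_nil, List.map_cons, List.map_nil, List.sum_cons,
        List.sum_nil]
      rw [wgt_lf, wgt_root, Sym2.eq_swap, wgt_root, Sym2.eq_swap, wgt_lf]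
      ring

theorem val_mem (u v : Fin t × (Fin p ⊕ Fin q)) :
    val u v ∈ Set.Icc (7 / 2 : ℝ) (9 / 2) ↔ (bip t p q).Adj u v := by
  have e : (bip t p q).Adj u v ↔ u.1 = v.1 ∧ u.2.isLeft ≠ v.2.isLeft := Iff.rfl
  rw [e, Set.mem_Icc]
  unfold val lw
  by_cases h1 : u.1 = v.1
  · rw [if_pos h1]
    rcases u.2 with a | a <;> rcases v.2 with b | b <;> simp [h1] <;> norm_num
  · rw [if_neg h1]
    rcases u.2 with a | a <;> rcases v.2 with b | b <;> simp [h1] <;> norm_num

theorem leaves_tr (ht : 2 ≤ t) (hp : 1 ≤ p) : Set.range (lf (t := t) (p := p) (q := q)) =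
    leaves (tr t p q) := by
  ext x
  constructor
  · rintro ⟨v, rfl⟩
    refine ⟨hub v.1, lf_hub v v.1 rfl, ?_⟩
    rintro y (h | h)
    · exact h.2.symm
    · exfalso
      rcases y with _ | (i | w)
      · exact h.1 rfl
      · exact absurd h.2 (by unfold lf par; exact (Option.some_ne_none _).symm)
      · have := h.2
        unfold lf par at this
        rw [Option.some.injEq] at this
        exact absurd this Sum.inl_ne_inr
  · rintro ⟨y, hy, hu⟩
    rcases x with _ | (i | v)
    · exfalso
      have h0 := hu (hub ⟨0, by omega⟩) (hub_root _).symm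
      have h1 := hu (hub ⟨1, by omega⟩) (hub_root _).symm
      rw [← h1] at h0
      unfold hub at h0
      rw [Option.some.injEq, Sum.inl.injEq, Fin.mk.injEq] at h0
      omega
    · exfalso
      have h0 := hu none (hub_root i)
      have h1 := hu (lf (i, Sum.inl ⟨0, hp⟩)) (lf_hub (i, Sum.inl ⟨0, hp⟩) i rfl).symm
      rw [← h1] at h0
      exact absurd h0 (by unfold lf; exact (Option.some_ne_none _).symm)
    · exact ⟨v, rfl⟩

theorem bip_isPCG (ht : 2 ≤ t) (hp : 1 ≤ p) : IsPCG (bip t p q) := by
  refine ⟨Nd t p q, inferInstance, tr t p q, wgt, lf, Set.Icc (7 / 2) (9 / 2), tr_isTree,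
    wgt_nonneg, ?_, leaves_tr ht hp, Set.ordConnected_Icc, ?_, ?_⟩
  · intro u v h
    unfold lf at h
    rw [Option.some.injEq, Sum.inr.injEq] at h
    exact h
  · intro x hx
    have := hx.1
    rw [Set.mem_Ici]
    linarith
  · intro u v huv
    rw [← val_mem]
    obtain ⟨P, hP, hw⟩ := exists_path u v huv
    constructor
    · intro h
      exact ⟨P, hP, by rw [hw]; exact h⟩
    · rintro ⟨Q, hQ, h⟩
      obtain ⟨_, _, hu⟩ := (tr_isTree (t := t) (p := p) (q := q)).existsUnique_path (lf u) (lf v)
      have : Q = P := (hu Q hQ).trans (hu P hP).symm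
      rw [this, hw] at h
      exact h

end Pool.Agent.Q145.PC
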