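import Mathlib

/-!
# Pairwise compatibility graphs: definitions
-/

set_option autoImplicit false

namespace Pool.Agent.Q145.PC

/-- The total weight of the edges of a walk. -/
def wt {W : Type} {T : SimpleGraph W} (w : Sym2 W → ℝ) {a b : W} (p : T.Walk a b) : ℝ :=
  (p.edges.map w).sum

/-- The leaves of a graph: the vertices with exactly one neighbour. -/
def leaves {W : Type} (T : SimpleGraph W) : Set W := {x | ∃! y, T.Adj x y}

/-- `G` is a pairwise compatibility graph: there are a finite tree `T` with nonnegative edge weights,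
whose leaves are the vertices of `G` (identified by `f`), and an interval `I` of nonnegative
numbers, such that two distinct vertices of `G` are adjacent if and only if the weight of the path
between them in `T` is in `I`. -/
def IsPCG {V : Type} (G : SimpleGraph V) : Prop :=
  ∃ (W : Type) (_ : Finite W) (T : SimpleGraph W) (w : Sym2 W → ℝ) (f : V → W) (I : Set ℝ),
    T.IsTree ∧ (∀ e, 0 ≤ w e) ∧ Function.Injective f ∧ Set.range f = leaves T ∧
    I.OrdConnected ∧ I ⊆ Set.Ici 0 ∧
    ∀ u v : V, u ≠ v → (G.Adj u v ↔ ∃ p : T.Walk (f u) (f v), p.IsPath ∧ wt w p ∈ I)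

/-- `G` is a `k`-AND-PCG: its edge set is the intersection of the edge sets of `k` pairwise
compatibility graphs on the same vertices. -/
def IsAndPCG {V : Type} (k : ℕ) (G : SimpleGraph V) : Prop :=
  ∃ E : Fin k → SimpleGraph V, (∀ i, IsPCG (E i)) ∧
    ∀ u v : V, u ≠ v → (G.Adj u v ↔ ∀ i, (E i).Adj u v)

end Pool.Agent.Q145.PC
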