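import Pool.Agent.Q145.PC.Defs

/-!
# The four point condition for weighted trees
-/

set_option autoImplicit false

namespace Pool.Agent.Q145.PC

open SimpleGraph

variable {W : Type}

/-- `a` and `b` are joined in `T` without the edge `e` -/
def R (T : SimpleGraph W) (e : Sym2 W) (a b : W) : Prop := (T.deleteEdges {e}).Reachable a b

theorem R.symm {T : SimpleGraph W} {e : Sym2 W} {a b : W} (h : R T e a b) : R T e b a :=
  Reachable.symm h

theorem R.trans {T : SimpleGraph W} {e : Sym2 W} {a b c : W} (h : R T e a b) (h' : R T e b c) :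
    R T e a c := Reachable.trans h h'

theorem R_of_walk {T : SimpleGraph W} {e : Sym2 W} {a b : W} (p : T.Walk a b) (h : e ∉ p.edges) :
    R T e a b := by
  refine ⟨p.toDeleteEdges {e} ?_⟩
  intro e' he' h'
  rw [Set.mem_singleton_iff] at h'
  exact h (h' ▸ he')

theorem two (T : SimpleGraph W) (u v : W) {a b : W} (p : T.Walk a b) (hb : b = u) :
    R T s(u, v) a u ∨ R T s(u, v) a v := by
  induction p with
  | nil => subst hb; exact Or.inl (Reachable.refl _)
  | @cons x y z h p ih =>
    have ih := ih hb
    by_cases he : s(x, y) = s(u, v)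
    · rw [Sym2.eq_iff] at he
      rcases he with ⟨h1, _⟩ | ⟨h1, _⟩
      · subst h1; exact Or.inl (Reachable.refl _)
      · subst h1; exact Or.inr (Reachable.refl _)
    · have hxy : R T s(u, v) x y := by
        refine Adj.reachable ?_
        rw [deleteEdges_adj]
        exact ⟨h, by rw [Set.mem_singleton_iff]; exact he⟩
      exact ih.imp hxy.trans hxy.trans

theorem two_classes {T : SimpleGraph W} (hT : T.Connected) (e : Sym2 W) {a b c : W}
    (h1 : ¬ R T e a b) (h2 : ¬ R T e b c) : R T e a c := by
  induction e using Sym2.ind with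
  | _ u v =>
    obtain ⟨pa⟩ := hT.preconnected a u
    obtain ⟨pb⟩ := hT.preconnected b u
    obtain ⟨pc⟩ := hT.preconnected c u
    rcases two T u v pa rfl with ha | ha <;> rcases two T u v pb rfl with hb | hb <;>
      rcases two T u v pc rfl with hc | hc
    · exact ha.trans hc.symm
    · exact absurd (ha.trans hb.symm) h1
    · exact ha.trans hc.symm
    · exact absurd (hb.trans hc.symm) h2
    · exact absurd (hb.trans hc.symm) h2
    · exact ha.trans hc.symm
    · exact absurd (ha.trans hb.symm) h1
    · exact ha.trans hc.symm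

theorem mem_iff {T : SimpleGraph W} (hT : T.IsTree) {a b : W} (p : T.Walk a b) (hp : p.IsPath)
    (e : Sym2 W) : e ∈ p.edges ↔ ¬ R T e a b := by
  classical
  constructor
  · rintro he ⟨q⟩
    have hle : T.deleteEdges {e} ≤ T := deleteEdges_le _
    set q' := (q.bypass).mapLe hle with hq'
    have hq'p : q'.IsPath := (Walk.isPath_mapLe hle).2 q.bypass_isPath
    have hpq : p = q' := by
      obtain ⟨_, _, hu⟩ := hT.existsUnique_path a b
      exact (hu p hp).trans (hu q' hq'p).symm
    rw [hpq, hq', Walk.edges_mapLe_eq_edges] at he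
    have h1 := Walk.edges_subset_edgeSet _ he
    rw [edgeSet_deleteEdges] at h1
    exact h1.2 rfl
  · intro h
    by_contra he
    exact h (R_of_walk p he)

open Classical in
/-- the distance in the weighted tree -/
noncomputable def D [Fintype W] (T : SimpleGraph W) (w : Sym2 W → ℝ) (a b : W) : ℝ :=
  ∑ e : Sym2 W, if R T e a b then 0 else w e

theorem wt_eq [Fintype W] {T : SimpleGraph W} (hT : T.IsTree) (w : Sym2 W → ℝ) {a b : W}
    (p : T.Walk a b) (hp : p.IsPath) : wt w p = D T w a b := by
  classical
  unfold wt D
  have hnd : p.edges.Nodup := hp.isTrail.edges_nodup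
  rw [← List.sum_toFinset w hnd]
  have h : p.edges.toFinset = Finset.univ.filter fun e => ¬ R T e a b := by
    ext e
    simp only [List.mem_toFinset, Finset.mem_filter, Finset.mem_univ, true_and]
    exact mem_iff hT p hp e
  rw [h, Finset.sum_filter]
  refine Finset.sum_congr rfl fun e _ => ?_
  by_cases h1 : R T e a b
  · rw [if_pos h1, if_neg (not_not.2 h1)]
  · rw [if_neg h1, if_pos h1]

theorem exists_edge [Fintype W] {T : SimpleGraph W} (hT : T.IsTree) {w : Sym2 W → ℝ}
    (hw : ∀ e, 0 ≤ w e) {x y z t : W}
    (h : D T w x z + D T w y t < D T w x y + D T w z t) :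
    ∃ e, R T e x z ∧ R T e y t ∧ ¬ R T e x y := by
  classical
  unfold D at h
  rw [← Finset.sum_add_distrib, ← Finset.sum_add_distrib] at h
  obtain ⟨e, _, he⟩ := Finset.exists_lt_of_sum_lt h
  refine ⟨e, ?_⟩
  have hc := hT.connected
  have hwe := hw e
  by_cases h1 : R T e x z
  · by_cases h2 : R T e y t
    · refine ⟨h1, h2, fun h3 => ?_⟩
      have h4 : R T e z t := (h1.symm.trans h3).trans h2
      simp only [if_pos h1, if_pos h2, if_pos h3, if_pos h4] at he
      exact lt_irrefl _ he
    · exfalso
      rw [if_pos h1, if_neg h2] at he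
      by_cases h3 : R T e x y
      · rw [if_pos h3] at he
        split_ifs at he <;> linarith
      · have h4 : R T e x t := two_classes hc e h3 h2
        have h5 : R T e z t := h1.symm.trans h4
        rw [if_neg h3, if_pos h5] at he
        linarith
  · exfalso
    rw [if_neg h1] at he
    by_cases h3 : R T e x y
    · rw [if_pos h3] at he
      split_ifs at he <;> linarith
    · have h4 : R T e y z := two_classes hc e (fun h => h3 h.symm) h1
      rw [if_neg h3] at he
      by_cases h2 : R T e y t
      · have h5 : R T e z t := h4.symm.trans h2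
        rw [if_pos h2, if_pos h5] at he
        linarith
      · rw [if_neg h2] at he
        split_ifs at he <;> linarith

/-- the four point condition -/
theorem four_point [Fintype W] {T : SimpleGraph W} (hT : T.IsTree) {w : Sym2 W → ℝ}
    (hw : ∀ e, 0 ≤ w e) (x y z t : W)
    (h1 : D T w x z + D T w y t < D T w x y + D T w z t)
    (h2 : D T w x t + D T w y z < D T w x y + D T w z t) : False := by
  classical
  obtain ⟨e, e1, e2, e3⟩ := exists_edge hT hw h1
  have h2' : D T w x t + D T w y z < D T w x y + D T w t z := by
    have : D T w t z = D T w z t := by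
      unfold D
      refine Finset.sum_congr rfl fun e _ => ?_
      have : R T e t z ↔ R T e z t := ⟨R.symm, R.symm⟩
      simp only [this]
    rw [this]; exact h2
  obtain ⟨f, f1, f2, f3⟩ := exists_edge hT hw h2'
  obtain ⟨p, hp, _⟩ := hT.existsUnique_path x z
  obtain ⟨q, hq, _⟩ := hT.existsUnique_path y t
  have pe : e ∉ p.edges := fun h => (mem_iff hT p hp e).1 h e1
  have qe : e ∉ q.edges := fun h => (mem_iff hT q hq e).1 h e2
  have pf : f ∈ p.edges := (mem_iff hT p hp f).2 fun h => f3 (h.trans f2.symm)
  have qf : f ∈ q.edges := (mem_iff hT q hq f).2 fun h => f3 (f1.trans h.symm)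
  induction f using Sym2.ind with
  | _ a b =>
    have ha : a ∈ p.support := Walk.fst_mem_support_of_mem_edges p pf
    have ha' : a ∈ q.support := Walk.fst_mem_support_of_mem_edges q qf
    have r1 : R T e x a := R_of_walk (p.takeUntil a ha) fun h =>
      pe (Walk.edges_takeUntil_subset_edges p ha h)
    have r2 : R T e y a := R_of_walk (q.takeUntil a ha') fun h =>
      qe (Walk.edges_takeUntil_subset_edges q ha' h)
    exact e3 (r1.trans r2.symm)

end Pool.Agent.Q145.PC
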