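import Pool.Agent.Q145.PC.Bip

/-!
# Complements of pairwise compatibility graphs
-/

set_option autoImplicit false

namespace Pool.Agent.Q145.PC

open SimpleGraph

/-- one of the four pairs is long -/
theorem long {V : Type} {E : SimpleGraph V} {d : V → V → ℝ} {I : Set ℝ} (hI : I.OrdConnected)
    (h4 : ∀ x y z t, d x z + d y t < d x y + d z t → d x t + d y z < d x y + d z t → False)
    (hd : ∀ u v, u ≠ v → (E.Adj u v ↔ d u v ∈ I)) {a a' b b' : V}
    (haa : E.Adj a a') (hbb : E.Adj b b')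
    (n1 : a ≠ b) (n2 : a ≠ b') (n3 : a' ≠ b) (n4 : a' ≠ b')
    (h1 : ¬ E.Adj a b) (h2 : ¬ E.Adj a b') (h3 : ¬ E.Adj a' b) (h5 : ¬ E.Adj a' b') :
    ∃ u v, (u = a ∨ u = a') ∧ (v = b ∨ v = b') ∧ ∀ s ∈ I, s < d u v := by
  have ia : d a a' ∈ I := (hd a a' haa.ne).1 haa
  have ib : d b b' ∈ I := (hd b b' hbb.ne).1 hbb
  have tri : ∀ u v, u ≠ v → ¬ E.Adj u v → (∀ s ∈ I, d u v < s) ∨ (∀ s ∈ I, s < d u v) := by
    intro u v huv hn
    rw [hd u v huv] at hn
    by_contra hcon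
    push Not at hcon
    obtain ⟨⟨s, hs, hs'⟩, s', hs1, hs2⟩ := hcon
    exact hn (hI.out hs hs1 ⟨hs', hs2⟩)
  rcases tri a b n1 h1 with t1 | t1
  · rcases tri a b' n2 h2 with t2 | t2
    · rcases tri a' b n3 h3 with t3 | t3
      · rcases tri a' b' n4 h5 with t4 | t4
        · exfalso
          apply h4 a a' b b'
          · have := t1 _ ia; have := t4 _ ib; linarith
          · have := t2 _ ia; have := t3 _ ib; linarith
        · exact ⟨a', b', Or.inr rfl, Or.inr rfl, t4⟩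
      · exact ⟨a', b, Or.inr rfl, Or.inl rfl, t3⟩
    · exact ⟨a, b', Or.inl rfl, Or.inr rfl, t2⟩
  · exact ⟨a, b, Or.inl rfl, Or.inl rfl, t1⟩

/-- A pairwise compatibility graph does not contain two completely joined copies of the
complement of a 4-cycle. -/
theorem no_two {V : Type} {E : SimpleGraph V} (hE : IsPCG E) {a a' b b' c c' e e' : V}
    (haa : E.Adj a a') (hbb : E.Adj b b')
    (n1 : a ≠ b) (n2 : a ≠ b') (n3 : a' ≠ b) (n4 : a' ≠ b')
    (h1 : ¬ E.Adj a b) (h2 : ¬ E.Adj a b') (h3 : ¬ E.Adj a' b) (h5 : ¬ E.Adj a' b')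
    (hcc : E.Adj c c') (hee : E.Adj e e')
    (m1 : c ≠ e) (m2 : c ≠ e') (m3 : c' ≠ e) (m4 : c' ≠ e')
    (g1 : ¬ E.Adj c e) (g2 : ¬ E.Adj c e') (g3 : ¬ E.Adj c' e) (g5 : ¬ E.Adj c' e')
    (hx : ∀ u v, (u = a ∨ u = a' ∨ u = b ∨ u = b') → (v = c ∨ v = c' ∨ v = e ∨ v = e') →
      E.Adj u v) : False := by
  obtain ⟨W, hW, T, w, f, I, hT, hw, hf, -, hI, -, hadj⟩ := hE
  haveI := Fintype.ofFinite W
  have h4 : ∀ x y z t : V, D T w (f x) (f z) + D T w (f y) (f t) <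
      D T w (f x) (f y) + D T w (f z) (f t) → D T w (f x) (f t) + D T w (f y) (f z) <
      D T w (f x) (f y) + D T w (f z) (f t) → False :=
    fun x y z t => four_point hT hw (f x) (f y) (f z) (f t)
  have hd : ∀ u v, u ≠ v → (E.Adj u v ↔ D T w (f u) (f v) ∈ I) := by
    intro u v huv
    rw [hadj u v huv]
    constructor
    · rintro ⟨p, hp, hpI⟩
      rwa [wt_eq hT w p hp] at hpI
    · intro h
      obtain ⟨p, hp, _⟩ := hT.existsUnique_path (f u) (f v)
      exact ⟨p, hp, by rwa [wt_eq hT w p hp]⟩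
  obtain ⟨u, v, hu, hv, l1⟩ := long (d := fun u v => D T w (f u) (f v)) hI h4 hd haa hbb n1 n2 n3
    n4 h1 h2 h3 h5
  obtain ⟨u', v', hu', hv', l2⟩ := long (d := fun u v => D T w (f u) (f v)) hI h4 hd hcc hee m1
    m2 m3 m4 g1 g2 g3 g5
  have i1 : ∀ x y, (x = u ∨ x = v) → (y = u' ∨ y = v') → D T w (f x) (f y) ∈ I := by
    intro x y hx' hy'
    have hadj' : E.Adj x y := by
      apply hx
      · rcases hx' with rfl | rfl
        · rcases hu with rfl | rfl
          · exact Or.inl rfl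
          · exact Or.inr (Or.inl rfl)
        · rcases hv with rfl | rfl
          · exact Or.inr (Or.inr (Or.inl rfl))
          · exact Or.inr (Or.inr (Or.inr rfl))
      · rcases hy' with rfl | rfl
        · rcases hu' with rfl | rfl
          · exact Or.inl rfl
          · exact Or.inr (Or.inl rfl)
        · rcases hv' with rfl | rfl
          · exact Or.inr (Or.inr (Or.inl rfl))
          · exact Or.inr (Or.inr (Or.inr rfl))
    exact (hd x y hadj'.ne).1 hadj'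
  refine h4 u v u' v' ?_ ?_
  · have := l1 _ (i1 u u' (Or.inl rfl) (Or.inl rfl))
    have := l2 _ (i1 v v' (Or.inr rfl) (Or.inr rfl))
    linarith
  · have := l1 _ (i1 u v' (Or.inl rfl) (Or.inr rfl))
    have := l2 _ (i1 v u' (Or.inr rfl) (Or.inl rfl))
    linarith

/-- every colouring of the edges of `K_{k+1,M}` with `k` colours, `M > k (k+1)^2`, contains a
monochromatic 4-cycle -/
theorem mono_cycle {k M : ℕ} (hM : k * ((k + 1) * (k + 1)) < M)
    (col : Fin (k + 1) → Fin M → Fin k) :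
    ∃ a a' b b' c, a ≠ a' ∧ b ≠ b' ∧ col a b = c ∧ col a b' = c ∧ col a' b = c ∧
      col a' b' = c := by
  have h1 : ∀ b, ∃ x : Fin (k + 1) × Fin (k + 1), x.1 ≠ x.2 ∧ col x.1 b = col x.2 b := by
    intro b
    obtain ⟨a, a', hne, h⟩ := Fintype.exists_ne_map_eq_of_card_lt (fun a => col a b) (by simp)
    exact ⟨(a, a'), hne, h⟩
  choose F hF1 hF2 using h1
  obtain ⟨b, b', hbb, h⟩ := Fintype.exists_ne_map_eq_of_card_lt
    (fun b => ((col (F b).1 b, F b) : Fin k × (Fin (k + 1) × Fin (k + 1))))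
    (by simpa using hM)
  rw [Prod.mk.injEq] at h
  obtain ⟨e1, e2⟩ := h
  refine ⟨(F b).1, (F b).2, b, b', col (F b).1 b, hF1 b, hbb, rfl, ?_, (hF2 b).symm, ?_⟩
  · rw [e1, e2]
  · rw [e1, e2]
    exact (hF2 b').symm

theorem not_and {k M : ℕ} (hM : k * ((k + 1) * (k + 1)) < M) :
    ¬ IsAndPCG k (bip (k + 1) (k + 1) M)ᶜ := by
  rintro ⟨E, hE, h⟩
  have h1 : ∀ (i : Fin (k + 1)) (a : Fin (k + 1)) (b : Fin M), ∃ c : Fin k,
      ¬ (E c).Adj (i, Sum.inl a) (i, Sum.inr b) := by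
    intro i a b
    by_contra hcon
    push Not at hcon
    have hne : ((i, Sum.inl a) : Fin (k + 1) × (Fin (k + 1) ⊕ Fin M)) ≠ (i, Sum.inr b) := by
      intro h'
      rw [Prod.mk.injEq] at h'
      exact absurd h'.2 Sum.inl_ne_inr
    have := (h _ _ hne).2 hcon
    rw [compl_adj] at this
    exact this.2 ⟨rfl, by simp⟩
  choose col hcol using h1
  have h2 : ∀ i, ∃ x : (Fin (k + 1) × Fin (k + 1)) × (Fin M × Fin M), ∃ c : Fin k,
      x.1.1 ≠ x.1.2 ∧ x.2.1 ≠ x.2.2 ∧ col i x.1.1 x.2.1 = c ∧ col i x.1.1 x.2.2 = c ∧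
      col i x.1.2 x.2.1 = c ∧ col i x.1.2 x.2.2 = c := by
    intro i
    obtain ⟨a, a', b, b', c, h⟩ := mono_cycle hM (col i)
    exact ⟨((a, a'), (b, b')), c, h⟩
  choose x c hx using h2
  obtain ⟨i, j, hij, hc⟩ := Fintype.exists_ne_map_eq_of_card_lt c (by simp)
  have hadj : ∀ u v : Fin (k + 1) × (Fin (k + 1) ⊕ Fin M), u ≠ v →
      ¬ (bip (k + 1) (k + 1) M).Adj u v → (E (c i)).Adj u v := by
    intro u v huv hn
    refine (h u v huv).1 ?_ (c i)
    rw [compl_adj]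
    exact ⟨huv, hn⟩
  have hL : ∀ (l : Fin (k + 1)) (a a' : Fin (k + 1)), a ≠ a' →
      (E (c i)).Adj (l, Sum.inl a) (l, Sum.inl a') := by
    intro l a a' haa
    refine hadj _ _ ?_ fun h' => h'.2 rfl
    intro h'
    rw [Prod.mk.injEq, Sum.inl.injEq] at h'
    exact haa h'.2
  have hR : ∀ (l : Fin (k + 1)) (b b' : Fin M), b ≠ b' →
      (E (c i)).Adj (l, Sum.inr b) (l, Sum.inr b') := by
    intro l b b' hbb
    refine hadj _ _ ?_ fun h' => h'.2 rfl
    intro h'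
    rw [Prod.mk.injEq, Sum.inr.injEq] at h'
    exact hbb h'.2
  have hne : ∀ (l : Fin (k + 1)) (a : Fin (k + 1)) (b : Fin M),
      ((l, Sum.inl a) : Fin (k + 1) × (Fin (k + 1) ⊕ Fin M)) ≠ (l, Sum.inr b) := by
    intro l a b h'
    rw [Prod.mk.injEq] at h'
    exact absurd h'.2 Sum.inl_ne_inr
  obtain ⟨p1, p2, p3, p4, p5, p6⟩ := hx i
  obtain ⟨q1, q2, q3, q4, q5, q6⟩ := hx j
  have hcr : ∀ u v : Fin (k + 1) × (Fin (k + 1) ⊕ Fin M), u.1 = i → v.1 = j →
      (E (c i)).Adj u v := by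
    intro u v hu hv
    refine hadj u v ?_ fun h' => hij (hu.symm.trans (h'.1.trans hv))
    intro h'
    exact hij (hu.symm.trans ((congrArg Prod.fst h').trans hv))
  have key : ∀ (l : Fin (k + 1)) (a : Fin (k + 1)) (b : Fin M), col l a b = c i →
      ¬ (E (c i)).Adj (l, Sum.inl a) (l, Sum.inr b) := by
    intro l a b e
    rw [← e]
    exact hcol l a b
  refine no_two (hE (c i)) (hL i _ _ p1) (hR i _ _ p2) (hne i _ _) (hne i _ _) (hne i _ _)
    (hne i _ _) (key i _ _ p3) (key i _ _ p4) (key i _ _ p5) (key i _ _ p6)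
    (hL j _ _ q1) (hR j _ _ q2) (hne j _ _) (hne j _ _) (hne j _ _)
    (hne j _ _) (key j _ _ (q3.trans hc.symm)) (key j _ _ (q4.trans hc.symm))
    (key j _ _ (q5.trans hc.symm)) (key j _ _ (q6.trans hc.symm)) ?_
  intro u v hu hv
  apply hcr
  · rcases hu with rfl | rfl | rfl | rfl <;> rfl
  · rcases hv with rfl | rfl | rfl | rfl <;> rfl

end Pool.Agent.Q145.PC
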